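import Pool.Agent.T2H61.FC4.Core

/-!
# Infinite groups with element orders at most four have infinite abelian subgroups
-/

set_option autoImplicit false

namespace Pool.Agent.T2H61.FC4

variable {Q : Type} [Group Q]

theorem fibre_finite {v : Q} (hv : (Z v).Finite) (g : Q) : {g' : Q | g'⁻¹ * v * g' = g⁻¹ * v * g}.Finite := by
  refine (hv.image (fun k => k * g)).subset ?_
  intro g' hg'
  refine ⟨g' * g⁻¹, ?_, by simp⟩
  have h1 : g'⁻¹ * v * g' = g⁻¹ * v * g := hg'
  show g' * g⁻¹ * v = v * (g' * g⁻¹)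
  calc g' * g⁻¹ * v = g' * (g⁻¹ * v * g) * g⁻¹ := by group
    _ = g' * (g'⁻¹ * v * g') * g⁻¹ := by rw [h1]
    _ = v * (g' * g⁻¹) := by group

theorem step (h : OrdersAtMost Q 4) (A : Subgroup Q) (hA : ∀ x ∈ A, ∀ y ∈ A, x * y = y * x)
    (hf : (A : Set Q).Finite) (hC : (Subgroup.centralizer (A : Set Q) : Set Q).Infinite) :
    ∃ B : Subgroup Q, A < B ∧ (∀ x ∈ B, ∀ y ∈ B, x * y = y * x) ∧
      (Subgroup.centralizer (B : Set Q) : Set Q).Infinite := by
  obtain ⟨C, hCdef⟩ : ∃ C : Subgroup Q, C = Subgroup.centralizer (A : Set Q) := ⟨_, rfl⟩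
  rw [← hCdef] at hC
  have hCm : ∀ g : Q, g ∈ C ↔ ∀ x ∈ A, x * g = g * x := by
    intro g
    rw [hCdef, Subgroup.mem_centralizer_iff]
    rfl
  have : Infinite C := hC.to_subtype
  obtain ⟨N, hN⟩ : ∃ N : Subgroup C, ∀ g : C, g ∈ N ↔ (g : Q) ∈ A := ⟨A.subgroupOf C, fun g => Subgroup.mem_subgroupOf⟩
  have hnorm : N.Normal := ⟨fun n hn g => by
    rw [hN] at hn ⊢
    have h1 := (hCm g).1 g.2 n hn
    have h2 : ((g * n * g⁻¹ : C) : Q) = n := by
      show (g : Q) * n * (g : Q)⁻¹ = n
      rw [← h1]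
      group
    rw [h2]
    exact hn⟩
  have hNf : (N : Set C).Finite := by
    refine Set.Finite.of_finite_image (f := fun y : C => (y : Q)) (hf.subset ?_) (by
      intro a _ b _ hab
      exact Subtype.ext hab)
    rintro _ ⟨g, hg, rfl⟩
    exact (hN g).1 hg
  have : Finite N := hNf.to_subtype
  have hinf : Infinite (C ⧸ N) := by
    by_contra hnot
    have : Finite (C ⧸ N) := not_infinite_iff_finite.1 hnot
    have : Finite C := Finite.of_equiv _ (Subgroup.groupEquivQuotientProdSubgroup (s := N)).symm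
    exact not_finite C
  have hord : OrdersAtMost (C ⧸ N) 4 := by
    intro x
    obtain ⟨g, rfl⟩ := QuotientGroup.mk_surjective x
    obtain ⟨j, h1, h2, h3⟩ := h (g : Q)
    refine ⟨j, h1, h2, ?_⟩
    rw [← QuotientGroup.mk_pow]
    have h4 : g ^ j = 1 := Subtype.ext (by simpa using h3)
    rw [h4]
    rfl
  obtain ⟨w, hw1, hwinf⟩ := core hord
  obtain ⟨v, rfl⟩ := QuotientGroup.mk_surjective w
  have hvN : v ∉ N := fun hv => hw1 ((QuotientGroup.eq_one_iff _).2 hv)
  have hZv : (Z v : Set C).Infinite := by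
    intro hfin
    have hD : {g : C | (QuotientGroup.mk g : C ⧸ N) ∈ Z (QuotientGroup.mk v : C ⧸ N)}.Finite := by
      refine fin_of_fibres (fun g : C => g⁻¹ * v * g) _ ((fun n => v * n) '' (N : Set C)) (hNf.image _) ?_
        (fun g _ => fibre_finite hfin g)
      intro g hg
      have h1 : (QuotientGroup.mk g : C ⧸ N) * QuotientGroup.mk v = QuotientGroup.mk v * QuotientGroup.mk g := hg
      refine ⟨v⁻¹ * g⁻¹ * v * g, ?_, by group⟩
      show v⁻¹ * g⁻¹ * v * g ∈ N
      rw [← QuotientGroup.eq_one_iff, QuotientGroup.mk_mul, QuotientGroup.mk_mul, QuotientGroup.mk_mul,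
        QuotientGroup.mk_inv, QuotientGroup.mk_inv, mul_assoc, ← h1]
      group
    apply hwinf
    refine (hD.image (fun g : C => (QuotientGroup.mk g : C ⧸ N))).subset ?_
    intro x hx
    obtain ⟨g, rfl⟩ := QuotientGroup.mk_surjective x
    exact ⟨g, hx, rfl⟩
  have hvC := (hCm v).1 v.2
  have hS : ∀ x ∈ insert (v : Q) (A : Set Q), ∀ y ∈ insert (v : Q) (A : Set Q), x * y = y * x := by
    rintro x (rfl | hx) y (rfl | hy)
    · rfl
    · exact (hvC y hy).symm
    · exact hvC x hx
    · exact hA x hx y hy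
  have h1 : Subgroup.closure (insert (v : Q) (A : Set Q)) ≤ Subgroup.centralizer (insert (v : Q) (A : Set Q)) :=
    (Subgroup.closure_le _).2 fun x hx => Subgroup.mem_centralizer_iff.2 fun y hy => hS y hy x hx
  refine ⟨Subgroup.closure (insert (v : Q) (A : Set Q)), ?_, ?_, ?_⟩
  · refine lt_of_le_of_ne (fun x hx => Subgroup.subset_closure (Or.inr hx)) ?_
    intro he
    apply hvN
    rw [hN, he]
    exact Subgroup.subset_closure (Or.inl rfl)
  · have h2 : Subgroup.closure (insert (v : Q) (A : Set Q)) ≤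
        Subgroup.centralizer (Subgroup.closure (insert (v : Q) (A : Set Q)) : Set Q) :=
      (Subgroup.closure_le _).2 fun x hx => Subgroup.mem_centralizer_iff.2 fun y hy =>
        (Subgroup.mem_centralizer_iff.1 (h1 hy) x hx).symm
    intro x hx y hy
    exact Subgroup.mem_centralizer_iff.1 (h2 hy) x hx
  · refine (hZv.image (f := fun k : C => (k : Q)) (fun a _ b _ hab => Subtype.ext hab)).mono ?_
    rintro _ ⟨k, hk, rfl⟩
    have hk' : k * v = v * k := hk
    have hk2 : (k : Q) * v = v * k := congrArg Subtype.val hk'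
    have h3 : Subgroup.closure (insert (v : Q) (A : Set Q)) ≤ Subgroup.centralizer ({(k : Q)} : Set Q) := by
      refine (Subgroup.closure_le _).2 ?_
      intro x hx
      refine Subgroup.mem_centralizer_iff.2 ?_
      intro y hy
      rw [Set.mem_singleton_iff.1 hy]
      rcases hx with rfl | hx
      · exact hk2
      · exact ((hCm k).1 k.2 x hx).symm
    refine Subgroup.mem_centralizer_iff.2 fun y hy => ?_
    exact (Subgroup.mem_centralizer_iff.1 (h3 hy) k rfl).symm

/-- Infinite groups with element orders at most four have infinite abelian subgroups. -/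
theorem infinite_abelian [Infinite Q] (h : OrdersAtMost Q 4) :
    ∃ A : Subgroup Q, (A : Set Q).Infinite ∧ ∀ x ∈ A, ∀ y ∈ A, x * y = y * x := by
  by_contra hno
  push Not at hno
  have hfin : ∀ A : Subgroup Q, (∀ x ∈ A, ∀ y ∈ A, x * y = y * x) → (A : Set Q).Finite := by
    intro A hA
    by_contra hinf
    obtain ⟨x, hx, y, hy, hne⟩ := hno A hinf
    exact hne (hA x hx y hy)
  let S := {A : Subgroup Q // (∀ x ∈ A, ∀ y ∈ A, x * y = y * x) ∧
    (Subgroup.centralizer (A : Set Q) : Set Q).Infinite}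
  have : Nonempty S := ⟨⟨⊥, by
    intro x hx y hy
    rw [Subgroup.mem_bot.1 hx, Subgroup.mem_bot.1 hy], by
    refine Set.infinite_univ.mono ?_
    intro g _
    refine Subgroup.mem_centralizer_iff.2 fun x hx => ?_
    rw [Subgroup.mem_bot.1 hx]
    simp⟩⟩
  have : NoMaxOrder S := ⟨fun A => by
    obtain ⟨B, hAB, hB1, hB2⟩ := step h A.1 A.2.1 (hfin _ A.2.1) A.2.2
    exact ⟨⟨B, hB1, hB2⟩, hAB⟩⟩
  obtain ⟨f, hf⟩ := Nat.exists_strictMono S
  have hmono : Monotone fun n => (f n).1 := fun i j hij => hf.monotone hij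
  have hdir : Directed (· ≤ ·) fun n => (f n).1 := hmono.directed_le
  have hB : ∀ x ∈ (⨆ n, (f n).1 : Subgroup Q), ∀ y ∈ (⨆ n, (f n).1 : Subgroup Q), x * y = y * x := by
    intro x hx y hy
    obtain ⟨i, hi⟩ := (Subgroup.mem_iSup_of_directed hdir).1 hx
    obtain ⟨j, hj⟩ := (Subgroup.mem_iSup_of_directed hdir).1 hy
    exact (f (max i j)).2.1 x (hmono (le_max_left _ _) hi) y (hmono (le_max_right _ _) hj)
  have hBf := hfin _ hB
  have hsub := hBf.finite_subsets
  refine Set.infinite_range_of_injective (f := fun n => ((f n).1 : Set Q)) ?_ (hsub.subset ?_)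
  · intro i j hij
    apply hf.injective
    exact Subtype.ext (SetLike.coe_injective hij)
  · rintro _ ⟨n, rfl⟩
    exact le_iSup (fun n => (f n).1) n

end Pool.Agent.T2H61.FC4
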