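import Mathlib

/-!
# Infinite groups with element orders at most four: an element with infinite centraliser
-/

set_option autoImplicit false

namespace Pool.Agent.T2H61.FC4

variable {Q : Type} [Group Q]

/-- every element of `G` has order at most `k` -/
def OrdersAtMost (G : Type) [Group G] (k : ℕ) : Prop :=
  ∀ x : G, ∃ j : ℕ, 1 ≤ j ∧ j ≤ k ∧ x ^ j = 1

/-- the elements commuting with `v` -/
def Z (v : Q) : Set Q := {g | g * v = v * g}

theorem fin_of_fibres {α β : Type} (f : α → β) (S : Set α) (T : Set β) (hT : T.Finite)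
    (h : ∀ c ∈ S, f c ∈ T) (hf : ∀ c ∈ S, {c' | f c' = f c}.Finite) : S.Finite := by
  have h1 : (f '' S).Finite := hT.subset (by rintro _ ⟨c, hc, rfl⟩; exact h c hc)
  refine (h1.biUnion (t := fun t => {c' | c' ∈ S ∧ f c' = t}) ?_).subset ?_
  · rintro _ ⟨c, hc, rfl⟩
    exact (hf c hc).subset fun c' hc' => hc'.2
  · intro c hc
    exact Set.mem_biUnion ⟨c, hc, rfl⟩ ⟨hc, rfl⟩

theorem class_infinite [Infinite Q] {v : Q} (hv : (Z v).Finite) (T : Set Q) (hT : ∀ g : Q, g⁻¹ * v * g ∈ T) :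
    T.Infinite := by
  intro hfin
  refine Set.infinite_univ (α := Q) (fin_of_fibres (fun g : Q => g⁻¹ * v * g) Set.univ T hfin (fun g _ => hT g) ?_)
  intro g _
  refine (hv.image (fun k => k * g)).subset ?_
  intro g' hg'
  refine ⟨g' * g⁻¹, ?_, by simp⟩
  have h1 : g'⁻¹ * v * g' = g⁻¹ * v * g := hg'
  show g' * g⁻¹ * v = v * (g' * g⁻¹)
  calc g' * g⁻¹ * v = g' * (g⁻¹ * v * g) * g⁻¹ := by group
    _ = g' * (g'⁻¹ * v * g') * g⁻¹ := by rw [h1]
    _ = v * (g' * g⁻¹) := by group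

theorem bad_finite (h : OrdersAtMost Q 4) (hZ : ∀ v : Q, v ≠ 1 → (Z v).Finite) {u : Q} (hu : u * u = 1)
    (hu1 : u ≠ 1) : {d : Q | d * d = 1 ∧ (u * d) ^ 3 ≠ 1}.Finite := by
  have h1 : (Z u ∪ ⋃ v ∈ {v : Q | v ∈ Z u ∧ v ≠ 1}, Z v).Finite := by
    refine (hZ u hu1).union (((hZ u hu1).subset fun v hv => hv.1).biUnion ?_)
    intro v hv
    exact hZ v hv.2
  refine h1.subset ?_
  rintro d ⟨hd, h3⟩
  have hui : u⁻¹ = u := inv_eq_of_mul_eq_one_left hu
  have hdi : d⁻¹ = d := inv_eq_of_mul_eq_one_left hd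
  have h4 : (u * d) ^ 4 = 1 := by
    obtain ⟨j, hj1, hj2, hj⟩ := h (u * d)
    have : j = 1 ∨ j = 2 ∨ j = 3 ∨ j = 4 := by omega
    rcases this with rfl | rfl | rfl | rfl
    · rw [pow_one] at hj
      rw [hj, one_pow]
    · rw [show (4 : ℕ) = 2 * 2 from rfl, pow_mul, hj, one_pow]
    · exact absurd hj h3
    · exact hj
  by_cases h2 : (u * d) * (u * d) = 1
  · left
    show d * u = u * d
    have h5 : u * d = (u * d)⁻¹ := eq_inv_of_mul_eq_one_left h2
    rw [mul_inv_rev, hui, hdi] at h5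
    exact h5.symm
  · right
    have h5 : (u * d) * (u * d) = d * u * (d * u) := by
      have h6 : (u * d) * (u * d) * ((u * d) * (u * d)) = 1 := by
        rw [← h4]; simp [pow_succ, mul_assoc]
      have h7 := eq_inv_of_mul_eq_one_left h6
      rw [mul_inv_rev, mul_inv_rev, hui, hdi] at h7
      exact h7
    simp only [Set.mem_iUnion]
    refine ⟨(u * d) * (u * d), ⟨?_, h2⟩, ?_⟩
    · show (u * d) * (u * d) * u = u * ((u * d) * (u * d))
      calc (u * d) * (u * d) * u = d * u * (d * u) * u := by rw [h5]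
        _ = d * u * d * (u * u) := by group
        _ = d * u * d := by rw [hu, mul_one]
        _ = u * u * (d * (u * d)) := by rw [hu, one_mul, mul_assoc]
        _ = u * ((u * d) * (u * d)) := by group
    · show d * ((u * d) * (u * d)) = (u * d) * (u * d) * d
      calc d * ((u * d) * (u * d)) = d * (d * u * (d * u)) := by rw [h5]
        _ = d * d * (u * d * u) := by group
        _ = u * d * u := by rw [hd, one_mul]
        _ = u * d * u * (d * d) := by rw [hd, mul_one]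
        _ = (u * d) * (u * d) * d := by group

theorem key {a b c : Q} (ha : a * a = 1) (hb : b * b = 1) (hc : c * c = 1) (h1 : (a * b) ^ 3 = 1)
    (h2 : (a * c) ^ 3 = 1) (h3 : (b * c) ^ 3 = 1) :
    (a * b)⁻¹ * (a * c)⁻¹ * (a * b) * (a * c) ∈ Z a := by
  have hai : a⁻¹ = a := inv_eq_of_mul_eq_one_left ha
  have hbi : b⁻¹ = b := inv_eq_of_mul_eq_one_left hb
  have hci : c⁻¹ = c := inv_eq_of_mul_eq_one_left hc
  obtain ⟨x, hx⟩ : ∃ x, x = a * b := ⟨_, rfl⟩
  obtain ⟨y, hy⟩ : ∃ y, y = a * c := ⟨_, rfl⟩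
  rw [← hx, ← hy]
  have hxa : a * x * a = x⁻¹ := by
    rw [hx, mul_inv_rev, hai, hbi, ← mul_assoc a a b, ha, one_mul]
  have hya : a * y * a = y⁻¹ := by
    rw [hy, mul_inv_rev, hai, hci, ← mul_assoc a a c, ha, one_mul]
  have hx3 : x * x * x = 1 := by
    rw [hx, ← h1]; simp [pow_succ, mul_assoc]
  have hy3 : y * y * y = 1 := by
    rw [hy, ← h2]; simp [pow_succ, mul_assoc]
  have hxy : x * y⁻¹ = a * (b * c) * a⁻¹ := by
    rw [hx, hy, mul_inv_rev, hci]; group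
  have hxy3 : x * y⁻¹ * (x * y⁻¹) * (x * y⁻¹) = 1 := by
    rw [hxy]
    calc a * (b * c) * a⁻¹ * (a * (b * c) * a⁻¹) * (a * (b * c) * a⁻¹)
        = a * ((b * c) * (b * c) * (b * c)) * a⁻¹ := by group
      _ = a * ((b * c) ^ 3) * a⁻¹ := by simp [pow_succ, mul_assoc]
      _ = 1 := by rw [h3]; group
  have e1 : x * y⁻¹ * x = y * x⁻¹ * y := by
    calc x * y⁻¹ * x = (x * y⁻¹ * (x * y⁻¹) * (x * y⁻¹)) * y * x⁻¹ * y := by group
      _ = y * x⁻¹ * y := by rw [hxy3]; group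
  have hxi : x⁻¹ = x * x := by
    rw [inv_eq_iff_mul_eq_one, ← mul_assoc, hx3]
  have hyi : y⁻¹ = y * y := by
    rw [inv_eq_iff_mul_eq_one, ← mul_assoc, hy3]
  have e2 : x⁻¹ * y⁻¹ * x * y = x * y * x⁻¹ * y⁻¹ := by
    calc x⁻¹ * y⁻¹ * x * y = x * x * y⁻¹ * x * y := by rw [← hxi]
      _ = x * (x * y⁻¹ * x) * y := by group
      _ = x * (y * x⁻¹ * y) * y := by rw [e1]
      _ = x * y * x⁻¹ * (y * y) := by group
      _ = x * y * x⁻¹ * y⁻¹ := by rw [← hyi]
  show x⁻¹ * y⁻¹ * x * y * a = a * (x⁻¹ * y⁻¹ * x * y)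
  have hxa' : a * x⁻¹ * a = x := by
    rw [← hxa]
    calc a * (a * x * a) * a = (a * a) * x * (a * a) := by group
      _ = x := by rw [ha]; group
  have hya' : a * y⁻¹ * a = y := by
    rw [← hya]
    calc a * (a * y * a) * a = (a * a) * y * (a * a) := by group
      _ = y := by rw [ha]; group
  have e3 : a * (x⁻¹ * y⁻¹ * x * y) * a = x * y * x⁻¹ * y⁻¹ := by
    calc a * (x⁻¹ * y⁻¹ * x * y) * a
        = (a * x⁻¹ * a) * a⁻¹ * a⁻¹ * (a * y⁻¹ * a) * a⁻¹ * a⁻¹ * (a * x * a) * a⁻¹ * a⁻¹ * (a * y * a) := by group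
      _ = x * y * x⁻¹ * y⁻¹ := by
          rw [hxa', hya', hxa, hya, hai]
          calc x * a * a * y * a * a * x⁻¹ * a * a * y⁻¹
              = x * (a * a) * y * (a * a) * x⁻¹ * (a * a) * y⁻¹ := by group
            _ = x * y * x⁻¹ * y⁻¹ := by rw [ha]; group
  calc x⁻¹ * y⁻¹ * x * y * a = x * y * x⁻¹ * y⁻¹ * a := by rw [e2]
    _ = a * (x⁻¹ * y⁻¹ * x * y) * a * a := by rw [e3]
    _ = a * (x⁻¹ * y⁻¹ * x * y) * (a * a) := by group
    _ = a * (x⁻¹ * y⁻¹ * x * y) := by rw [ha, mul_one]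

/-- **Lemma.** -/
theorem core [Infinite Q] (h : OrdersAtMost Q 4) : ∃ v : Q, v ≠ 1 ∧ (Z v).Infinite := by
  by_contra hcon
  push Not at hcon
  have hZ : ∀ v : Q, v ≠ 1 → (Z v).Finite := fun v hv => hcon v hv
  by_cases hinv : ∃ u : Q, u * u = 1 ∧ u ≠ 1
  · obtain ⟨a, ha, ha1⟩ := hinv
    have hI : {d : Q | d * d = 1}.Infinite := class_infinite (hZ a ha1) _ fun g => by
      show g⁻¹ * a * g * (g⁻¹ * a * g) = 1
      calc g⁻¹ * a * g * (g⁻¹ * a * g) = g⁻¹ * (a * a) * g := by group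
        _ = 1 := by rw [ha]; group
    have hBa := bad_finite h hZ ha ha1
    obtain ⟨b, hb, hbn⟩ := (hI.sdiff (hBa.union (Set.toFinite {a, 1}))).nonempty
    have hb2 : b * b = 1 := hb
    have hb1 : b ≠ 1 := fun e => hbn (Or.inr (by simp [e]))
    have hba : b ≠ a := fun e => hbn (Or.inr (by simp [e]))
    have hab3 : (a * b) ^ 3 = 1 := by
      by_contra hne
      exact hbn (Or.inl ⟨hb2, hne⟩)
    have hab1 : a * b ≠ 1 := by
      intro e
      apply hba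
      have := eq_inv_of_mul_eq_one_right e
      rw [this]
      exact inv_eq_of_mul_eq_one_left ha
    have hBb := bad_finite h hZ hb2 hb1
    refine (hI.sdiff (hBa.union hBb)) (fin_of_fibres
      (fun c => (a * b)⁻¹ * (a * c)⁻¹ * (a * b) * (a * c)) _ (Z a) (hZ a ha1) ?_ ?_)
    · rintro c ⟨hc, hcn⟩
      have hc2 : c * c = 1 := hc
      refine key ha hb2 hc2 hab3 ?_ ?_
      · by_contra hne
        exact hcn (Or.inl ⟨hc2, hne⟩)
      · by_contra hne
        exact hcn (Or.inr ⟨hc2, hne⟩)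
    · rintro c -
      refine ((hZ _ hab1).image (fun k => a⁻¹ * (k * (a * c)))).subset ?_
      intro c' hc'
      refine ⟨(a * c') * (a * c)⁻¹, ?_, by group⟩
      have h1 : (a * b)⁻¹ * (a * c')⁻¹ * (a * b) * (a * c') = (a * b)⁻¹ * (a * c)⁻¹ * (a * b) * (a * c) := hc'
      show a * c' * (a * c)⁻¹ * (a * b) = a * b * (a * c' * (a * c)⁻¹)
      calc a * c' * (a * c)⁻¹ * (a * b)
          = a * c' * (a * b) * ((a * b)⁻¹ * (a * c)⁻¹ * (a * b) * (a * c)) * (a * c)⁻¹ := by group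
        _ = a * c' * (a * b) * ((a * b)⁻¹ * (a * c')⁻¹ * (a * b) * (a * c')) * (a * c)⁻¹ := by rw [h1]
        _ = a * b * (a * c' * (a * c)⁻¹) := by group
  · push Not at hinv
    have h3 : ∀ x : Q, x * x * x = 1 := by
      intro x
      obtain ⟨j, hj1, hj2, hj⟩ := h x
      have : j = 1 ∨ j = 2 ∨ j = 3 ∨ j = 4 := by omega
      rcases this with rfl | rfl | rfl | rfl
      · rw [pow_one] at hj
        rw [hj]; simp
      · rw [pow_two] at hj
        rw [hinv x hj]; simp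
      · rw [← hj]; simp [pow_succ]
      · have h5 : x * x * (x * x) = 1 := by rw [← hj]; simp [pow_succ, mul_assoc]
        rw [hinv x (hinv _ h5)]; simp
    obtain ⟨x, hx⟩ := exists_ne (1 : Q)
    refine class_infinite (hZ x hx) (Z x) (fun g => ?_) (hZ x hx)
    show g⁻¹ * x * g * x = x * (g⁻¹ * x * g)
    have e1 := h3 (x * g⁻¹)
    have e2 := h3 (x * g)
    have hgi : g⁻¹ = g * g := by rw [inv_eq_iff_mul_eq_one, ← mul_assoc, h3]
    have r1 : x * (g⁻¹ * x * g) = g * x⁻¹ * g⁻¹ := by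
      calc x * (g⁻¹ * x * g) = (x * g⁻¹ * (x * g⁻¹) * (x * g⁻¹)) * g * x⁻¹ * (g * g) := by group
        _ = g * x⁻¹ * g⁻¹ := by rw [e1, ← hgi]; group
    have r2 : g⁻¹ * x * g * x = g⁻¹ * g⁻¹ * x⁻¹ * g⁻¹ := by
      calc g⁻¹ * x * g * x = g⁻¹ * (x * g * (x * g) * (x * g)) * g⁻¹ * x⁻¹ * g⁻¹ := by group
        _ = g⁻¹ * g⁻¹ * x⁻¹ * g⁻¹ := by rw [e2]; group
    have r3 : g⁻¹ * g⁻¹ = g := by
      calc g⁻¹ * g⁻¹ = g * (g * g * g)⁻¹ := by group
        _ = g := by rw [h3]; group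
    rw [r1, r2, r3]

end Pool.Agent.T2H61.FC4
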